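import Pool.Agent.Lib.MP_43150e_al.Main

/-!
# Spreading groups with an alternating normal subgroup are QI
-/

set_option autoImplicit false

namespace Pool.Agent.Results.MP_43150e_al.AlternatingSocle

/-- The permutation group `G` on the finite set `Ω` is transitive. -/
def IsTransitiveGroup {Ω : Type} (G : Subgroup (Equiv.Perm Ω)) : Prop :=
  ∀ x y : Ω, ∃ g ∈ G, g x = y

/-- The permutation group `G` is 2-transitive. -/
def IsTwoTransitiveGroup {Ω : Type} (G : Subgroup (Equiv.Perm Ω)) : Prop :=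
  ∀ x y x' y' : Ω, x ≠ y → x' ≠ y' → ∃ g ∈ G, g x = x' ∧ g y = y'

/-- The permutation group `G` is spreading: for every nonempty proper subset `A` and every
singular (not bijective) map `t` there is `g ∈ G` with `|(Ag)t⁻¹| > |A|`, where `Ag` is the image
of `A` under `g`. -/
def IsSpreadingGroup {Ω : Type} [Fintype Ω] [DecidableEq Ω] (G : Subgroup (Equiv.Perm Ω)) : Prop :=
  ∀ A : Finset Ω, A.Nonempty → A ≠ Finset.univ → ∀ t : Ω → Ω, ¬ Function.Bijective t →
    ∃ g ∈ G, A.card < (Finset.univ.filter (fun x => t x ∈ A.image (fun y => g y))).card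

/-- The permutation group `G` is QI: the rational permutation module (functions `Ω → ℚ`) is the
direct sum of the constant functions and one irreducible `ℚG`-submodule `V`. -/
def IsQIGroup {Ω : Type} (G : Subgroup (Equiv.Perm Ω)) : Prop :=
  ∃ V : Submodule ℚ (Ω → ℚ),
    (∀ g ∈ G, ∀ f ∈ V, (fun x => f (g x)) ∈ V) ∧
    IsCompl (Submodule.span ℚ {(fun _ => 1 : Ω → ℚ)}) V ∧
    V ≠ ⊥ ∧
    ∀ W : Submodule ℚ (Ω → ℚ), W ≤ V → (∀ g ∈ G, ∀ f ∈ W, (fun x => f (g x)) ∈ W) →
      W = ⊥ ∨ W = V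

/-- A transitive spreading permutation group on at least two points with a normal subgroup
isomorphic to a positive power of the alternating group `A_n`, `n ≥ 14`, is 2-transitive, and in
particular QI. -/
theorem result : ∀ (Ω : Type) [Fintype Ω] [DecidableEq Ω] (G : Subgroup (Equiv.Perm Ω)),
    2 ≤ Fintype.card Ω → IsTransitiveGroup G → IsSpreadingGroup G →
    ∀ (M : Subgroup G), M.Normal → ∀ n k : ℕ, 14 ≤ n → 1 ≤ k →
    Nonempty (M ≃* (Fin k → alternatingGroup (Fin n))) →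
    IsTwoTransitiveGroup G ∧ IsQIGroup G := by
  intro Ω _ _ G hcard htr hsp M hM n k hn hk he
  obtain ⟨e⟩ := he
  have := hM
  have hΩ : Nontrivial Ω := Fintype.one_lt_card_iff_nontrivial.1 hcard
  have htr' : MulAction.IsPretransitive G Ω := by
    constructor
    intro x y
    obtain ⟨g, hg, h⟩ := htr x y
    exact ⟨⟨g, hg⟩, h⟩
  have hsp' : Spr43.IsSpreading G Ω := by
    intro A h1 h2 t ht
    obtain ⟨g, hg, h⟩ := hsp A h1 h2 t ht
    exact ⟨⟨g, hg⟩, h⟩
  refine ⟨?_, ?_⟩
  · intro x y x' y' hxy hxy'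
    obtain ⟨g, h1, h2⟩ := Spr43.main_two_transitive hΩ G htr' hsp' M n k hn hk e x y x' y' hxy hxy'
    exact ⟨g, g.2, h1, h2⟩
  · obtain ⟨V, h1, h2, h3, h4⟩ := Spr43.main_qi hΩ G htr' hsp' M n k hn hk e
    refine ⟨V, fun g hg f hf => h1 ⟨g, hg⟩ f hf, h2, h3, fun W hW hinv => ?_⟩
    exact h4 W hW (fun g f hf => hinv g g.2 f hf)

end Pool.Agent.Results.MP_43150e_al.AlternatingSocle
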