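import Pool.Agent.Lib.MP_43150e_al.BN.Main
import Pool.Agent.Lib.MP_43150e_al.BN.Simple
import Pool.Agent.Lib.MP_43150e_al.SU.PreSU

/-!
# Spreading groups whose socle is of Lie type: the point stabilisers are parabolic
-/

set_option autoImplicit false

namespace Pool.Agent.Results.MP_43150e_al.LieTypeParabolic

/-- The permutation group `G` on the finite set `Ω` is transitive. -/
def IsTransitiveGroup {Ω : Type} (G : Subgroup (Equiv.Perm Ω)) : Prop :=
  ∀ x y : Ω, ∃ g ∈ G, g x = y

/-- The permutation group `G` is spreading: for every nonempty proper subset `A` and every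
singular (not bijective) map `t` there is `g ∈ G` with `|(Ag)t⁻¹| > |A|`, where `Ag` is the image
of `A` under `g`. -/
def IsSpreadingGroup {Ω : Type} [Fintype Ω] [DecidableEq Ω] (G : Subgroup (Equiv.Perm Ω)) : Prop :=
  ∀ A : Finset Ω, A.Nonempty → A ≠ Finset.univ → ∀ t : Ω → Ω, ¬ Function.Bijective t →
    ∃ g ∈ G, A.card < (Finset.univ.filter (fun x => t x ∈ A.image (fun y => g y))).card

/-- The datum is not vacuous: the groups `PSp_{2m+2}(K)` and `PSU_{2m+2}(K)`, `m ≥ 1`, over finite
fields `K` (with an involution) whose fixed field has more than `59` elements, have it. -/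
theorem exists_datum (m : ℕ) (K : Type) [Field K] [StarRing K] [Finite K] (hm : 1 ≤ m)
    (hq : 59 < Nat.card (SU43.K0 K)) :
    Nonempty (BN43.Datum (SU43.grp m K ⧸ Subgroup.center (SU43.grp m K))) := by
  obtain ⟨p, hp⟩ := CharP.exists K
  have hpp : Fact p.Prime := ⟨CharP.char_is_prime K p⟩
  exact ⟨(SU43.pre m K p hm hq).quot⟩

/-- Let `T` be a finite simple group with a split BN-pair of rank at least two whose rank one
sections are of type `A_1` over fields with more than `59` elements. A transitive spreading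
permutation group on a finite set with at least two points with a normal subgroup `M ≅ T^k`,
`k ≥ 1`, satisfies `k = 1`, and the Borel subgroup `B` of `T ≅ M` fixes a point. -/
theorem result : ∀ (T : Type) [Group T] [Finite T] [IsSimpleGroup T] (D : BN43.Datum T)
    (Ω : Type) [Fintype Ω] [DecidableEq Ω] (G : Subgroup (Equiv.Perm Ω)),
    2 ≤ Fintype.card Ω → IsTransitiveGroup G → IsSpreadingGroup G →
    ∀ (M : Subgroup G), M.Normal → ∀ (k : ℕ), 1 ≤ k → ∀ e : M ≃* (Fin k → T),
    k = 1 ∧ ∃ x : Ω, ∀ g : M, (∀ i, e g i ∈ D.B) → (g : Equiv.Perm Ω) x = x := by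
  intro T _ _ _ D Ω _ _ G hcard htr hsp M hM k hk e
  have := hM
  have hΩ : Nontrivial Ω := Fintype.one_lt_card_iff_nontrivial.1 hcard
  have htr' : MulAction.IsPretransitive G Ω := by
    constructor
    intro x y
    obtain ⟨g, hg, h⟩ := htr x y
    exact ⟨⟨g, hg⟩, h⟩
  have hsp' : Spr43.IsSpreading G Ω := by
    intro A h1 h2 t ht
    obtain ⟨g, hg, h⟩ := hsp A h1 h2 t ht
    exact ⟨⟨g, hg⟩, h⟩
  exact BN43.main_bn D D.noncomm hΩ G htr' hsp' M k hk e

end Pool.Agent.Results.MP_43150e_al.LieTypeParabolic
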