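import Pool.Agent.Lib.MP_43150e_al.SU.MainSU

/-!
# Symplectic and unitary groups are not normal subgroups of spreading groups
-/

set_option autoImplicit false

namespace Pool.Agent.Results.MP_43150e_al.SympUnitSocle

open Matrix

/-- The permutation group `G` on the finite set `Ω` is transitive. -/
def IsTransitiveGroup {Ω : Type} (G : Subgroup (Equiv.Perm Ω)) : Prop :=
  ∀ x y : Ω, ∃ g ∈ G, g x = y

/-- The permutation group `G` is spreading: for every nonempty proper subset `A` and every
singular (not bijective) map `t` there is `g ∈ G` with `|(Ag)t⁻¹| > |A|`, where `Ag` is the image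
of `A` under `g`. -/
def IsSpreadingGroup {Ω : Type} [Fintype Ω] [DecidableEq Ω] (G : Subgroup (Equiv.Perm Ω)) : Prop :=
  ∀ A : Finset Ω, A.Nonempty → A ≠ Finset.univ → ∀ t : Ω → Ω, ¬ Function.Bijective t →
    ∃ g ∈ G, A.card < (Finset.univ.filter (fun x => t x ∈ A.image (fun y => g y))).card

/-- The antidiagonal matrix of size `2n` with entries `1` in the first `n` rows and `-1` in the
last `n` rows. -/
def formMatrix (n : ℕ) (K : Type) [Field K] : Matrix (Fin (2 * n)) (Fin (2 * n)) K :=
  Matrix.of fun i j => if j = i.rev then (if (i : ℕ) < n then 1 else -1) else 0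

/-- The group of the matrices `A` of determinant one and size `2n` over `K` with `A J A* = J`,
where `J` is `formMatrix` and `A*` the conjugate transpose: `Sp_{2n}(K)` if `star` is trivial,
`SU_{2n}(K)` otherwise. -/
def isometryGroup (n : ℕ) (K : Type) [Field K] [StarRing K] :
    Subgroup (SpecialLinearGroup (Fin (2 * n)) K) where
  carrier := {A | A.1 * formMatrix n K * A.1ᴴ = formMatrix n K}
  one_mem' := by
    show (1 : Matrix (Fin (2 * n)) (Fin (2 * n)) K) * formMatrix n K *
      (1 : Matrix (Fin (2 * n)) (Fin (2 * n)) K)ᴴ = formMatrix n K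
    rw [conjTranspose_one, one_mul, mul_one]
  mul_mem' := by
    intro A B hA hB
    show (A.1 * B.1) * formMatrix n K * (A.1 * B.1)ᴴ = formMatrix n K
    rw [conjTranspose_mul]
    calc A.1 * B.1 * formMatrix n K * (B.1ᴴ * A.1ᴴ)
        = A.1 * (B.1 * formMatrix n K * B.1ᴴ) * A.1ᴴ := by simp only [Matrix.mul_assoc]
      _ = formMatrix n K := by rw [show B.1 * formMatrix n K * B.1ᴴ = formMatrix n K from hB,
          show A.1 * formMatrix n K * A.1ᴴ = formMatrix n K from hA]
  inv_mem' := by
    intro A hA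
    have h1 : A⁻¹.1 * A.1 = 1 := congrArg Subtype.val (inv_mul_cancel A)
    have h2 : A.1ᴴ * A⁻¹.1ᴴ = 1 := by rw [← conjTranspose_mul, h1, conjTranspose_one]
    show A⁻¹.1 * formMatrix n K * A⁻¹.1ᴴ = formMatrix n K
    calc A⁻¹.1 * formMatrix n K * A⁻¹.1ᴴ
        = A⁻¹.1 * (A.1 * formMatrix n K * A.1ᴴ) * A⁻¹.1ᴴ := by
          rw [show A.1 * formMatrix n K * A.1ᴴ = formMatrix n K from hA]
      _ = (A⁻¹.1 * A.1) * formMatrix n K * (A.1ᴴ * A⁻¹.1ᴴ) := by simp only [Matrix.mul_assoc]
      _ = formMatrix n K := by rw [h1, h2, one_mul, mul_one]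

/-- Let `K` be a finite field with an involution `star` (possibly trivial) whose fixed field has
more than `59` elements, `n ≥ 2`, and `n ≥ 3` if `star` is not trivial. A transitive permutation
group on a finite set with at least two points which has a normal subgroup isomorphic to a
positive power of `isometryGroup n K` modulo its centre is not spreading. -/
theorem result : ∀ (Ω : Type) [Fintype Ω] [DecidableEq Ω] (G : Subgroup (Equiv.Perm Ω)),
    2 ≤ Fintype.card Ω → IsTransitiveGroup G →
    ∀ (M : Subgroup G), M.Normal →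
    ∀ (K : Type) [Field K] [StarRing K] [Fintype K] (n k : ℕ),
    59 < Nat.card {c : K // star c = c} → 2 ≤ n → ((∀ c : K, star c = c) ∨ 3 ≤ n) → 1 ≤ k →
    Nonempty (M ≃* (Fin k → isometryGroup n K ⧸ Subgroup.center (isometryGroup n K))) →
    ¬ IsSpreadingGroup G := by
  intro Ω _ _ G hcard htr M hM K _ _ _ n k hq hn hst hk he hsp
  obtain ⟨m, rfl⟩ : ∃ m, n = m + 1 := ⟨n - 1, by omega⟩
  obtain ⟨e⟩ := he
  have := hM
  have hΩ : Nontrivial Ω := Fintype.one_lt_card_iff_nontrivial.1 hcard
  have htr' : MulAction.IsPretransitive G Ω := by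
    constructor
    intro x y
    obtain ⟨g, hg, h⟩ := htr x y
    exact ⟨⟨g, hg⟩, h⟩
  have hsp' : Spr43.IsSpreading G Ω := by
    intro A h1 h2 t ht
    obtain ⟨g, hg, h⟩ := hsp A h1 h2 t ht
    exact ⟨⟨g, hg⟩, h⟩
  exact SU43.main_su (m := m) (K := K) (by omega) hq (hst.imp id (fun h => by omega)) hΩ G htr'
    M k hk e hsp'

end Pool.Agent.Results.MP_43150e_al.SympUnitSocle
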